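import Pool.Agent.H261R3.LD.Sph
import Pool.Agent.H904R2.Sphere

/-! Acyclicity of `arc × S^{n+1}` in degrees `≤ n`. -/

set_option autoImplicit false
set_option maxHeartbeats 400000

open scoped Topology unitInterval

namespace Pool.Agent.H261R3.LD

open Finsupp
open Pool.Agent.H904R2
open Pool.Agent.H904R2.Sph
open Pool.Agent.Helper922.HB.Sc (Sing sface sbd slice)

theorem racyc_retract {X Y : Type} [TopologicalSpace X] [TopologicalSpace Y] (f : C(X, Y))
    (g : C(Y, X)) (H : C(X × I, X)) (h0 : slice H 0 = ContinuousMap.id X)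
    (h1 : slice H 1 = g.comp f) {m : ℕ} (hY : RAcyc Y m) : RAcyc X m := by
  intro z hz
  have h2 := homotopy_bdy H hz
  rw [h0, h1, psh_id] at h2
  have h3 := bdy_psh g (hY _ (cyc_psh f hz))
  rw [psh_comp] at h3
  have h4 : z = psh (g.comp f) m z - (psh (g.comp f) m z - z) := by
    abel
  rw [h4]
  exact bdy_sub h3 h2

theorem Pc_acyc (n m : ℕ) (h : m ≤ n) : RAcyc (Pc (n + 2)) m := by
  induction m generalizing n with
  | zero => exact zero_acyc n
  | succ m ih =>
    obtain ⟨k, rfl⟩ : ∃ k, n = k + 1 := ⟨n - 1, by omega⟩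
    exact step_acyc (k + 2) m (ih k (by omega))

instance fact2 : Fact ((0 : ℝ) < 2) := ⟨two_pos⟩

/-- an open arc of the circle -/
def arc (a b : ℝ) : Set (AddCircle (2 : ℝ)) := (fun t : ℝ => (t : AddCircle (2 : ℝ))) '' Set.Ioo a b

/-- lift of the arc -/
noncomputable def rr (a : ℝ) (x : AddCircle (2 : ℝ)) : ℝ := AddCircle.equivIco 2 a x

theorem coe_rr (a : ℝ) (x : AddCircle (2 : ℝ)) : ((rr a x : ℝ) : AddCircle (2 : ℝ)) = x :=
  (AddCircle.equivIco 2 a).symm_apply_apply x

theorem rr_coe {a s : ℝ} (h : s ∈ Set.Ico a (a + 2)) : rr a (s : AddCircle (2 : ℝ)) = s := by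
  unfold rr
  rw [AddCircle.equivIco_coe_eq h]

theorem rr_mem {a b : ℝ} (hb : b ≤ a + 2) {x : AddCircle (2 : ℝ)} (hx : x ∈ arc a b) :
    rr a x ∈ Set.Ioo a b := by
  obtain ⟨s, hs, rfl⟩ := hx
  simp only
  rw [rr_coe ⟨hs.1.le, hs.2.trans_le hb⟩]
  exact hs

theorem arc_ne {a b : ℝ} (hb : b ≤ a + 2) {x : AddCircle (2 : ℝ)} (hx : x ∈ arc a b) :
    x ≠ (a : AddCircle (2 : ℝ)) := by
  intro h
  have h1 := rr_mem hb hx
  rw [h, rr_coe ⟨le_rfl, by linarith⟩] at h1
  exact lt_irrefl _ h1.1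

theorem rr_continuousOn (a : ℝ) : ContinuousOn (rr a) {(a : AddCircle (2 : ℝ))}ᶜ :=
  continuousOn_of_forall_continuousAt fun _ hx =>
    continuousAt_subtype_val.comp (AddCircle.continuousAt_equivIco 2 a hx)

/-- `arc × S^{n+1}` -/
def AA (n : ℕ) (a b : ℝ) : Set (Cyl n) := {x | x.fst ∈ arc a b}

theorem fst_continuous (n : ℕ) : Continuous (fun x : Cyl n => x.fst) := by
  have h1 : LipschitzWith 1 (fun x : Cyl n => x.fst) := by
    apply LipschitzWith.of_dist_le_mul
    intro x y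
    rw [NNReal.coe_one, one_mul]
    exact dist_fst_le x y
  exact h1.continuous

theorem snd_continuous (n : ℕ) : Continuous (fun x : Cyl n => x.snd) := by
  have h1 : LipschitzWith 1 (fun x : Cyl n => x.snd) := by
    apply LipschitzWith.of_dist_le_mul
    intro x y
    rw [NNReal.coe_one, one_mul]
    exact dist_snd_le x y
  exact h1.continuous

theorem toLp_continuous (n : ℕ) {A : Type} [TopologicalSpace A] {f : A → AddCircle (2 : ℝ)}
    {g : A → Sph n} (hf : Continuous f) (hg : Continuous g) :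
    Continuous (fun a => (WithLp.toLp 2 (f a, g a) : Cyl n)) :=
  (WithLp.homeomorphProd 2 (AddCircle (2 : ℝ)) (Sph n)).symm.continuous.comp (hf.prodMk hg)

/-- to punctured space -/
def toPc (n : ℕ) (a b : ℝ) : C(AA n a b, Pc (n + 2)) :=
  ⟨fun x => ⟨fun i => x.1.snd.val i, fun h => x.1.snd.ne_zero (by
      ext i
      exact congrFun h i)⟩, by
    apply Continuous.subtype_mk
    refine continuous_pi fun i => ?_
    have h1 : Continuous (fun v : EuclideanSpace ℝ (Fin (n + 2)) => v i) := by fun_prop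
    exact h1.comp ((Sph.continuous_val n).comp ((snd_continuous n).comp continuous_subtype_val))⟩

/-- unit vector -/
noncomputable def nrm (n : ℕ) (v : Pc (n + 2)) : Sph n :=
  ⟨‖(WithLp.toLp 2 v.1 : EuclideanSpace ℝ (Fin (n + 2)))‖⁻¹ • WithLp.toLp 2 v.1, by
    have h0 : (WithLp.toLp 2 v.1 : EuclideanSpace ℝ (Fin (n + 2))) ≠ 0 := by
      intro h
      apply v.2
      funext i
      exact congrArg (fun w : EuclideanSpace ℝ (Fin (n + 2)) => w i) h
    rw [norm_smul, norm_inv, norm_norm, inv_mul_cancel₀ (norm_ne_zero_iff.2 h0)]⟩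

theorem nrm_continuous (n : ℕ) : Continuous (nrm n) := by
  apply Sph.continuous_mk
  have h1 : Continuous (fun v : Pc (n + 2) =>
      (WithLp.toLp 2 v.1 : EuclideanSpace ℝ (Fin (n + 2)))) := by
    have h2 : Continuous (fun w : Fin (n + 2) → ℝ =>
      (WithLp.toLp 2 w : EuclideanSpace ℝ (Fin (n + 2)))) := by fun_prop
    exact h2.comp continuous_subtype_val
  refine Continuous.smul (Continuous.inv₀ h1.norm ?_) h1
  intro v h
  apply v.2
  funext i
  exact congrArg (fun w : EuclideanSpace ℝ (Fin (n + 2)) => w i) (norm_eq_zero.1 h)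

/-- from punctured space -/
noncomputable def fromPc (n : ℕ) (a b : ℝ) (hab : a < b) : C(Pc (n + 2), AA n a b) :=
  ⟨fun v => ⟨WithLp.toLp 2 ((((a + b) / 2 : ℝ) : AddCircle (2 : ℝ)), nrm n v),
      ⟨(a + b) / 2, ⟨by linarith, by linarith⟩, rfl⟩⟩,
    (toLp_continuous n continuous_const (nrm_continuous n)).subtype_mk _⟩

/-- the homotopy -/
noncomputable def arcH (n : ℕ) (a b : ℝ) (hab : a < b) (hb : b ≤ a + 2) :
    C(AA n a b × I, AA n a b) :=
  ⟨fun p => ⟨WithLp.toLp 2 ((((1 - (p.2 : ℝ)) * rr a p.1.1.fst + p.2 * ((a + b) / 2) : ℝ) :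
      AddCircle (2 : ℝ)), p.1.1.snd), by
      refine ⟨(1 - (p.2 : ℝ)) * rr a p.1.1.fst + p.2 * ((a + b) / 2), ?_, rfl⟩
      have h1 := rr_mem hb p.1.2
      have h2 : (a + b) / 2 ∈ Set.Ioo a b := ⟨by linarith, by linarith⟩
      exact (convex_Ioo a b) h1 h2 (by linarith [p.2.2.2]) p.2.2.1 (by ring)⟩, by
    apply Continuous.subtype_mk
    apply toLp_continuous
    · refine (AddCircle.continuous_mk' (2 : ℝ)).comp ?_
      have h1 : Continuous (fun p : AA n a b × I => rr a p.1.1.fst) := by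
        refine (rr_continuousOn a).comp_continuous ?_ ?_
        · exact (fst_continuous n).comp (continuous_subtype_val.comp continuous_fst)
        · intro p
          exact arc_ne hb p.1.2
      fun_prop
    · exact (snd_continuous n).comp (continuous_subtype_val.comp continuous_fst)⟩

theorem AA_acyc (n : ℕ) (a b : ℝ) (hab : a < b) (hb : b ≤ a + 2) (m : ℕ) (hm : m ≤ n) :
    RAcyc (AA n a b) m := by
  refine racyc_retract (toPc n a b) (fromPc n a b hab) (arcH n a b hab hb) ?_ ?_ (Pc_acyc n m hm)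
  · apply ContinuousMap.ext
    intro x
    apply Subtype.ext
    change WithLp.toLp 2 ((((1 - ((0 : I) : ℝ)) * rr a x.1.fst + ((0 : I) : ℝ) * ((a + b) / 2) : ℝ) :
      AddCircle (2 : ℝ)), x.1.snd) = x.1
    rw [Set.Icc.coe_zero, sub_zero, one_mul, zero_mul, add_zero, coe_rr]
    rfl
  · apply ContinuousMap.ext
    intro x
    apply Subtype.ext
    change WithLp.toLp 2 ((((1 - ((1 : I) : ℝ)) * rr a x.1.fst + ((1 : I) : ℝ) * ((a + b) / 2) : ℝ) :
      AddCircle (2 : ℝ)), x.1.snd) = WithLp.toLp 2 ((((a + b) / 2 : ℝ) : AddCircle (2 : ℝ)),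
        nrm n (toPc n a b x))
    rw [Set.Icc.coe_one, sub_self, zero_mul, zero_add, one_mul]
    congr 2
    apply Sph.ext
    change x.1.snd.val = ‖x.1.snd.val‖⁻¹ • x.1.snd.val
    rw [x.1.snd.norm_val, inv_one, one_smul]

end Pool.Agent.H261R3.LD
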