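import Pool.Agent.H261R3.LD.Defs
import Pool.Agent.H904R2.Sphere

/-! From integral to real singular homology. -/

set_option autoImplicit false
set_option maxHeartbeats 400000

namespace Pool.Agent.H261R3.LD

open Finsupp
open Pool.Agent.H904R2
open Pool.Agent.H904R2.Sph (sbd_single)
open Pool.Agent.Helper922.HB.Sc (Sing sface sbd)

variable {X : Type} [TopologicalSpace X]

/-- integral chains as real chains -/
noncomputable def ιR (X : Type) [TopologicalSpace X] (m : ℕ) : Ch X m →+ (Simp X m →₀ ℝ) :=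
  Finsupp.mapRange.addMonoidHom (Int.castAddHom ℝ)

theorem ιR_apply (m : ℕ) (z : Ch X m) (σ : Simp X m) : ιR X m z σ = (z σ : ℝ) := by
  simp [ιR]

theorem ιR_single (m : ℕ) (σ : Sing X m) (a : ℤ) : ιR X m (single σ a) = single σ (a : ℝ) := by
  simp [ιR]

theorem bdR_single (m : ℕ) (σ : Simp X (m + 1)) (a : ℝ) :
    bdR X m (single σ a) = a • ∑ i : Fin (m + 2), ((-1 : ℝ) ^ (i : ℕ)) • single (face m i σ) 1 := by
  rw [bdR, linearCombination_single]

theorem bdR_ιR (m : ℕ) (z : Ch X (m + 1)) : bdR X m (ιR X (m + 1) z) = ιR X m (sbd X m z) := by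
  induction z using Finsupp.induction_linear with
  | zero => simp
  | add f g hf hg => rw [map_add, map_add, map_add, map_add, hf, hg]
  | single σ a =>
    have h1 : (single σ a : Ch X (m + 1)) = a • single σ 1 := by simp
    rw [h1, map_zsmul, map_zsmul, map_zsmul, map_zsmul]
    congr 1
    rw [ιR_single, bdR_single, sbd_single, map_sum]
    simp only [Int.cast_one, one_smul]
    refine Finset.sum_congr rfl fun i _ => ?_
    rw [map_zsmul, ιR_single]
    rcases neg_one_pow_eq_or ℤ (i : ℕ) with h | h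
    · rw [h]
      have h' : ((-1 : ℝ)) ^ (i : ℕ) = 1 := by exact_mod_cast h
      rw [h']
      simp
      rfl
    · rw [h]
      have h' : ((-1 : ℝ)) ^ (i : ℕ) = -1 := by exact_mod_cast h
      rw [h']
      simp
      rfl

theorem vanishes_of_int (m : ℕ) (N : ℤ) (hN : N ≠ 0)
    (h : ∀ z : Ch X (m + 1), sbd X m z = 0 → IsBdy (m + 1) (N • z)) :
    HomologyVanishes X (m + 1) := by
  classical
  intro z hz
  have hz : bdR X m z = 0 := hz
  let V : Submodule ℤ ℝ := Submodule.span ℤ (Set.range z)
  have hfin : (Set.range z).Finite := by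
    have : Set.range z ⊆ insert 0 (z '' (z.support : Set (Simp X (m+1)))) := by
      rintro _ ⟨σ, rfl⟩
      by_cases h : z σ = 0
      · left; exact h
      · right; exact ⟨σ, by simpa using h, rfl⟩
    exact ((z.support.finite_toSet.image z).insert 0).subset this
  have : Module.Finite ℤ V := Module.Finite.iff_fg.mpr (Submodule.fg_span hfin)
  have : Module.Free ℤ V := inferInstance
  let b := Module.finBasis ℤ V
  let φ : Fin (Module.finrank ℤ V) → ℝ → ℤ := fun j r => if h : r ∈ V then b.coord j ⟨r, h⟩ else 0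
  have φ0 : ∀ j, φ j 0 = 0 := by
    intro j
    simp only [φ]
    rw [dif_pos (Submodule.zero_mem V)]
    exact map_zero (b.coord j)
  let zj : Fin (Module.finrank ℤ V) → Ch X (m + 1) := fun j => z.mapRange (φ j) (φ0 j)
  have hzsum : z = ∑ j, ((b j : V) : ℝ) • ιR X (m + 1) (zj j) := by
    ext σ
    have hV : z σ ∈ V := Submodule.subset_span ⟨σ, rfl⟩
    have h1 := b.sum_repr ⟨z σ, hV⟩
    have h2 := congrArg (Subtype.val) h1
    simp only [AddSubmonoidClass.coe_finsetSum, Submodule.coe_smul] at h2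
    rw [Finsupp.finsetSum_apply]
    conv_lhs => rw [← h2]
    refine Finset.sum_congr rfl fun j _ => ?_
    rw [Finsupp.smul_apply, ιR_apply]
    simp only [zj, mapRange_apply, φ]
    rw [dif_pos hV, Module.Basis.coord_apply, zsmul_eq_mul, smul_eq_mul, mul_comm]
  have hcyc : ∀ j, sbd X m (zj j) = 0 := by
    have h1 : ∑ j, ((b j : V) : ℝ) • ιR X m (sbd X m (zj j)) = 0 := by
      rw [← hz]
      conv_rhs => rw [hzsum]
      rw [map_sum]
      refine Finset.sum_congr rfl fun j _ => ?_
      rw [map_smul, bdR_ιR]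
    have h2 : ∀ ρ : Simp X m, ∀ j, sbd X m (zj j) ρ = 0 := by
      intro ρ
      have h3 := DFunLike.congr_fun h1 ρ
      rw [Finsupp.finsetSum_apply] at h3
      have h4 : ∑ j, (sbd X m (zj j) ρ) • b j = 0 := by
        apply Subtype.ext
        simp only [AddSubmonoidClass.coe_finsetSum, Submodule.coe_smul, ZeroMemClass.coe_zero]
        rw [← show (∑ j, (((b j : V) : ℝ) • ιR X m (sbd X m (zj j))) ρ) = 0 from h3]
        refine Finset.sum_congr rfl fun j _ => ?_
        rw [Finsupp.smul_apply, ιR_apply, zsmul_eq_mul, smul_eq_mul, mul_comm]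
      exact Fintype.linearIndependent_iff.1 b.linearIndependent _ h4
    intro j
    ext ρ
    exact h2 ρ j
  choose w hw using fun j => h (zj j) (hcyc j)
  refine ⟨∑ j, (((b j : V) : ℝ) / N) • ιR X (m + 2) (w j), ?_⟩
  rw [map_sum]
  conv_rhs => rw [hzsum]
  refine Finset.sum_congr rfl fun j _ => ?_
  rw [map_smul, bdR_ιR, hw j, map_zsmul]
  rw [← Int.cast_smul_eq_zsmul ℝ, smul_smul, div_mul_cancel₀]
  exact_mod_cast hN

end Pool.Agent.H261R3.LD
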