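import Mathlib

/-! Definitions for MP_b33053_gt: real singular homology, length spaces, the length (pseudo)metric
`dist_c` on the spaces of Lipschitz maps, the diameters `diam_c (Lip_λ (B^n(R) → S))`, and the
closed manifolds `S = (S¹ × S^{n+1}) / (ℤ/2)` which serve as counterexamples. -/

set_option autoImplicit false

open scoped ENNReal NNReal

namespace Pool.Agent.H261R3.LD

/-! ### Real singular homology -/

/-- Singular `n`-simplices of `X`. -/
abbrev Simp (X : Type) [TopologicalSpace X] (n : ℕ) : Type :=
  C(stdSimplex ℝ (Fin (n + 1)), X)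

/-- The `i`-th face of a singular `(n+1)`-simplex. -/
noncomputable def face {X : Type} [TopologicalSpace X] (n : ℕ) (i : Fin (n + 2))
    (σ : Simp X (n + 1)) : Simp X n :=
  σ.comp ⟨stdSimplex.map i.succAbove, stdSimplex.continuous_map _⟩

/-- The boundary `∂ σ = ∑ i, (-1)^i • (σ|_{i-th face})` from real singular `(n+1)`-chains to real
singular `n`-chains. -/
noncomputable def bdR (X : Type) [TopologicalSpace X] (n : ℕ) :
    (Simp X (n + 1) →₀ ℝ) →ₗ[ℝ] (Simp X n →₀ ℝ) :=
  Finsupp.linearCombination ℝ fun σ =>
    ∑ i : Fin (n + 2), ((-1 : ℝ) ^ (i : ℕ)) • Finsupp.single (face n i σ) (1 : ℝ)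

/-- A real singular `n`-chain is a cycle: no condition in degree `0`, `∂ z = 0` in degree
`n+1`. -/
def IsCycleR (X : Type) [TopologicalSpace X] : ∀ n : ℕ, (Simp X n →₀ ℝ) → Prop
  | 0, _ => True
  | (n + 1), z => bdR X n z = 0

/-- `H_n(X; ℝ) = 0`: every real singular `n`-cycle of `X` is the boundary of a real singular
`(n+1)`-chain. -/
def HomologyVanishes (X : Type) [TopologicalSpace X] (n : ℕ) : Prop :=
  ∀ z : Simp X n →₀ ℝ, IsCycleR X n z → ∃ w : Simp X (n + 1) →₀ ℝ, bdR X n w = z

/-! ### Length spaces and spaces of Lipschitz maps -/

/-- `S` is a length metric space: the distance of any two points is the infimum of the lengths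
of the paths joining them. -/
def IsLengthSpace (S : Type) [MetricSpace S] : Prop :=
  ∀ x y : S, edist x y = ⨅ γ : Path x y, eVariationOn γ Set.univ

/-- The closed Euclidean ball `B^n(R)` with the Euclidean metric. -/
abbrev EBall (n : ℕ) (R : ℝ) : Type := Metric.closedBall (0 : EuclideanSpace ℝ (Fin n)) R

/-- A curve in `Lip_c (X → S)` from `f` to `g`: a family `F t`, `t ∈ [0,1]`, of `c`-Lipschitz maps
such that the track `t ↦ F t x` of every point `x` is continuous. -/
structure LipCurve (X S : Type) [MetricSpace X] [MetricSpace S] (c : ℝ≥0) (f g : X → S) where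
  /-- the family of maps -/
  F : unitInterval → X → S
  lip : ∀ t, LipschitzWith c (F t)
  cont : ∀ x, Continuous fun t => F t x
  start : F 0 = f
  finish : F 1 = g

/-- The length of a curve in `Lip_c (X → S)`: the supremum of the lengths of the tracks. -/
noncomputable def LipCurve.length {X S : Type} [MetricSpace X] [MetricSpace S] {c : ℝ≥0}
    {f g : X → S} (γ : LipCurve X S c f g) : ℝ≥0∞ :=
  ⨆ x : X, eVariationOn (fun t => γ.F t x) Set.univ

/-- `dist_c (f, g)`: the infimum of the lengths of the curves in `Lip_c (X → S)` from `f`
to `g`. -/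
noncomputable def distLip (X S : Type) [MetricSpace X] [MetricSpace S] (c : ℝ≥0)
    (f g : X → S) : ℝ≥0∞ :=
  ⨅ γ : LipCurve X S c f g, γ.length

/-- `diam_c (Lip_a (X → S))`: the supremum of `dist_c (f, g)` over `f, g ∈ Lip_a (X → S)`. -/
noncomputable def diamLip (X S : Type) [MetricSpace X] [MetricSpace S] (c a : ℝ≥0) : ℝ≥0∞ :=
  ⨆ (f : X → S) (_ : LipschitzWith a f) (g : X → S) (_ : LipschitzWith a g), distLip X S c f g

/-- The assertion of Q1 for the dimension `n` and the space `S`: for some `c ≥ 1` the diameters
`diam_c (Lip_1 (B^n(R) → S))` stay bounded. -/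
def BoundedDiameters (n : ℕ) (S : Type) [MetricSpace S] : Prop :=
  ∃ c : ℝ≥0, 1 ≤ c ∧ ∃ D : ℝ≥0, ∀ R : ℝ, 0 < R → diamLip (EBall n R) S c 1 ≤ D

/-! ### The spaces -/

/-- An isometric involution of a metric space. -/
structure IsomInv (X : Type) [MetricSpace X] where
  /-- the map -/
  toFun : X → X
  invol : ∀ x, toFun (toFun x) = x
  isom : ∀ x y, dist (toFun x) (toFun y) = dist x y

/-- The equivalence relation `x ~ y` iff `x = y` or `x = σ y`. -/
def invSetoid {X : Type} [MetricSpace X] (s : IsomInv X) : Setoid X where
  r x y := x = y ∨ x = s.toFun y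
  iseqv :=
    { refl := fun x => Or.inl rfl
      symm := by
        rintro x y (rfl | rfl)
        · exact Or.inl rfl
        · exact Or.inr (s.invol y).symm
      trans := by
        rintro x y z (rfl | rfl) (rfl | rfl)
        · exact Or.inl rfl
        · exact Or.inr rfl
        · exact Or.inr rfl
        · exact Or.inl (s.invol z) }

/-- The quotient `X / σ` of a metric space by an isometric involution. -/
def InvQuot {X : Type} [MetricSpace X] (s : IsomInv X) : Type := Quotient (invSetoid s)

/-- The projection `X → X / σ`. -/
def InvQuot.proj {X : Type} [MetricSpace X] (s : IsomInv X) : X → InvQuot s := Quotient.mk _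

section
variable {X : Type} [MetricSpace X] (s : IsomInv X)

theorem IsomInv.dist_left (x y : X) : dist (s.toFun x) y = dist x (s.toFun y) := by
  rw [← s.isom x (s.toFun y), s.invol]

/-- The quotient metric: `dist [x] [y] = min (dist x y) (dist x (σ y))`. -/
noncomputable instance : MetricSpace (InvQuot s) where
  dist := Quotient.lift₂ (fun x y => min (dist x y) (dist x (s.toFun y))) (by
    rintro a b a' b' (rfl | rfl) (rfl | rfl)
    · rfl
    · simp only [s.invol]; rw [min_comm]
    · simp only [s.dist_left, s.invol]; rw [min_comm]
    · simp only [s.dist_left, s.invol])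
  dist_self := by
    intro x
    induction x using Quotient.inductionOn with
    | _ x => simp
  dist_comm := by
    intro x y
    induction x using Quotient.inductionOn with
    | _ x =>
      induction y using Quotient.inductionOn with
      | _ y =>
        change min _ _ = min _ _
        rw [dist_comm x y, dist_comm x (s.toFun y), s.dist_left]
  dist_triangle := by
    intro x y z
    induction x using Quotient.inductionOn with
    | _ x =>
      induction y using Quotient.inductionOn with
      | _ y =>
        induction z using Quotient.inductionOn with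
        | _ z =>
          change min _ _ ≤ min _ _ + min _ _
          rcases min_choice (dist x y) (dist x (s.toFun y)) with h | h <;>
          rcases min_choice (dist y z) (dist y (s.toFun z)) with h' | h' <;>
          rw [h, h']
          · exact (min_le_left _ _).trans (dist_triangle _ _ _)
          · exact (min_le_right _ _).trans (dist_triangle _ _ _)
          · refine (min_le_right _ _).trans ?_
            rw [← s.isom y z]
            exact dist_triangle _ _ _
          · refine (min_le_left _ _).trans ?_
            rw [← s.dist_left y z]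
            exact dist_triangle _ _ _
  eq_of_dist_eq_zero := by
    intro x y
    induction x using Quotient.inductionOn with
    | _ x =>
      induction y using Quotient.inductionOn with
      | _ y =>
        intro h
        change min _ _ = _ at h
        apply Quotient.sound
        rcases min_choice (dist x y) (dist x (s.toFun y)) with h' | h'
        · rw [h'] at h
          exact Or.inl (eq_of_dist_eq_zero h)
        · rw [h'] at h
          exact Or.inr (eq_of_dist_eq_zero h)

theorem InvQuot.dist_proj (x y : X) :
    dist (InvQuot.proj s x) (InvQuot.proj s y) = min (dist x y) (dist x (s.toFun y)) := rfl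

end

/-- The unit sphere `S^{n+1}` of `ℝ^{n+2}`. -/
@[ext] structure Sph (n : ℕ) : Type where
  /-- the vector -/
  val : EuclideanSpace ℝ (Fin (n + 2))
  norm_val : ‖val‖ = 1

theorem Sph.ne_zero {n : ℕ} (u : Sph n) : u.1 ≠ 0 := by
  intro h
  have := u.2
  rw [h, norm_zero] at this
  exact zero_ne_one this

/-- The angular (geodesic) metric of the unit sphere. -/
noncomputable instance (n : ℕ) : MetricSpace (Sph n) where
  dist u v := InnerProductGeometry.angle u.1 v.1
  dist_self u := InnerProductGeometry.angle_self u.ne_zero
  dist_comm u v := InnerProductGeometry.angle_comm u.1 v.1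
  dist_triangle u v w := InnerProductGeometry.angle_le_angle_add_angle u.1 v.1 w.1
  eq_of_dist_eq_zero := by
    intro u v h
    obtain ⟨_, r, hr, he⟩ := InnerProductGeometry.angle_eq_zero_iff.1 h
    have h1 := v.2
    rw [he, norm_smul, u.2, mul_one, Real.norm_of_nonneg hr.le] at h1
    apply Sph.ext
    rw [he, h1, one_smul]

theorem Sph.dist_def {n : ℕ} (u v : Sph n) : dist u v = InnerProductGeometry.angle u.1 v.1 := rfl

/-- The antipodal map of the sphere. -/
def Sph.anti {n : ℕ} (u : Sph n) : Sph n := ⟨-u.1, by rw [norm_neg, u.2]⟩

/-- The product `S¹ × S^{n+1}` of the circle `ℝ / 2ℤ` of length `2` and the unit sphere, with the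
`ℓ²` product metric (the distance of the product Riemannian metric). -/
abbrev Cyl (n : ℕ) : Type := WithLp 2 (AddCircle (2 : ℝ) × Sph n)

/-- The involution `(t, u) ↦ (-t, -u)` of `S¹ × S^{n+1}`. -/
noncomputable def flip (n : ℕ) : IsomInv (Cyl n) where
  toFun x := WithLp.toLp 2 (-x.fst, x.snd.anti)
  invol x := by
    apply (WithLp.equiv 2 _).injective
    apply Prod.ext
    · exact neg_neg _
    · exact Sph.ext (neg_neg _)
  isom x y := by
    have h1 : dist (-x.fst) (-y.fst) = dist x.fst y.fst := dist_neg_neg _ _
    have h2 : dist x.snd.anti y.snd.anti = dist x.snd y.snd :=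
      InnerProductGeometry.angle_neg_neg _ _
    rw [WithLp.prod_dist_eq_add (by norm_num), WithLp.prod_dist_eq_add (by norm_num), ← h1, ← h2]
    rfl

/-- The space `S = (S¹ × S^{n+1}) / ((t, u) ~ (-t, -u))` with the quotient metric. It is a closed
Riemannian manifold of dimension `n + 2`. -/
abbrev SS (n : ℕ) : Type := InvQuot (flip n)

end Pool.Agent.H261R3.LD
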