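import Pool.Agent.H261R3.LD.Sph

/-! The lower bound for the diameters. -/

set_option autoImplicit false
set_option maxHeartbeats 400000

open scoped ENNReal NNReal Topology unitInterval

namespace Pool.Agent.H261R3.LD

theorem var_lower {S : Type} [MetricSpace S] (h : I → S) (g : I → ℝ) (δ : ℝ) (hδ : 0 < δ)
    (H : ∀ s t : I, dist s t < δ → |g s - g t| ≤ dist (h s) (h t)) :
    ENNReal.ofReal |g 1 - g 0| ≤ eVariationOn h Set.univ := by
  obtain ⟨N, hN⟩ := exists_nat_one_div_lt hδ
  have hN0 : (0 : ℝ) < (N : ℝ) + 1 := by positivity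
  let u : ℕ → I := fun i => ⟨min ((i : ℝ) / (N + 1)) 1, le_min (by positivity) zero_le_one,
    min_le_right _ _⟩
  have hmono : Monotone u := by
    intro i j hij
    apply Subtype.coe_le_coe.1
    apply min_le_min_right
    have : (i : ℝ) ≤ j := by exact_mod_cast hij
    gcongr
  have hu0 : u 0 = 0 := by
    apply Subtype.ext
    simp [u]
  have hu1 : u (N + 1) = 1 := by
    apply Subtype.ext
    simp only [u, Nat.cast_add, Nat.cast_one, Set.Icc.coe_one]
    rw [div_self hN0.ne', min_self]
  have hstep : ∀ i, dist (u (i + 1)) (u i) < δ := by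
    intro i
    rw [Subtype.dist_eq, Real.dist_eq]
    refine lt_of_le_of_lt ?_ hN
    simp only [u]
    refine (abs_min_sub_min_le_max _ _ _ _).trans ?_
    rw [sub_self, abs_zero]
    refine max_le ?_ (by positivity)
    have : ((i + 1 : ℕ) : ℝ) / (N + 1) - i / (N + 1) = 1 / (N + 1) := by
      push_cast
      ring
    rw [this, abs_of_nonneg (by positivity)]
  have hsum := eVariationOn.sum_le (f := h) (s := Set.univ) (n := N + 1) hmono
    (fun _ => Set.mem_univ _)
  refine le_trans ?_ hsum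
  have h1 : |g 1 - g 0| ≤ ∑ i ∈ Finset.range (N + 1), dist (h (u (i + 1))) (h (u i)) := by
    have h2 : g 1 - g 0 = ∑ i ∈ Finset.range (N + 1), (g (u (i + 1)) - g (u i)) := by
      rw [Finset.sum_range_sub (fun i => g (u i)), hu0, hu1]
    rw [h2]
    refine (Finset.abs_sum_le_sum_abs _ _).trans (Finset.sum_le_sum fun i _ => ?_)
    exact H _ _ (hstep i)
  refine (ENNReal.ofReal_le_ofReal h1).trans ?_
  rw [ENNReal.ofReal_sum_of_nonneg (fun _ _ => dist_nonneg)]
  refine Finset.sum_le_sum fun i _ => ?_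
  rw [edist_dist]

variable {n : ℕ} (hn : 0 < n) (R : ℝ)

/-- first coordinate -/
noncomputable def crd (a : EBall n R) : ℝ := a.1 ⟨0, hn⟩

theorem crd_lip (a b : EBall n R) : |crd hn R a - crd hn R b| ≤ dist a b := by
  have h := EuclideanSpace.norm_eq (a.1 - b.1)
  rw [Subtype.dist_eq, dist_eq_norm, h]
  apply Real.le_sqrt_of_sq_le
  have h1 : |crd hn R a - crd hn R b| ^ 2 = ‖(a.1 - b.1) ⟨0, hn⟩‖ ^ 2 := rfl
  rw [h1]
  exact Finset.single_le_sum (f := fun i => ‖(a.1 - b.1) i‖ ^ 2) (fun i _ => by positivity)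
    (Finset.mem_univ _)

theorem crd_continuous : Continuous (crd hn R) := by
  have : LipschitzWith 1 (crd hn R) := by
    apply LipschitzWith.of_dist_le_mul
    intro a b
    rw [NNReal.coe_one, one_mul, Real.dist_eq]
    exact crd_lip hn R a b
  exact this.continuous

/-- lift of the stretched map -/
noncomputable def f0t (a : EBall n R) : Cyl n :=
  WithLp.toLp 2 ((crd hn R a : AddCircle (2 : ℝ)), Sph.base n)

theorem f0t_lip : LipschitzWith 1 (f0t hn R) := by
  apply LipschitzWith.of_dist_le_mul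
  intro a b
  rw [NNReal.coe_one, one_mul, dist_L2]
  change √(dist (crd hn R a : AddCircle (2 : ℝ)) (crd hn R b : AddCircle (2 : ℝ)) ^ 2 +
    dist (Sph.base n) (Sph.base n) ^ 2) ≤ _
  rw [dist_self, dist_eq_norm, ← AddCircle.coe_sub]
  have h1 := (norm_coe_le (crd hn R a - crd hn R b)).trans (crd_lip hn R a b)
  rw [Real.sqrt_le_left dist_nonneg]
  have h2 := pow_le_pow_left₀ (norm_nonneg _) h1 2
  linarith

/-- the stretched map -/
noncomputable def f0 (a : EBall n R) : SS n := InvQuot.proj (flip n) (f0t hn R a)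

theorem f0_lip : LipschitzWith 1 (f0 hn R) := by
  have := (proj_lip (flip n)).comp (f0t_lip hn R)
  rwa [one_mul] at this

/-- the constant map -/
noncomputable def f1 (_ : EBall n R) : SS n :=
  InvQuot.proj (flip n) (WithLp.toLp 2 (0, Sph.base n))

theorem f1_lip : LipschitzWith 1 (f1 (n := n) R) :=
  (LipschitzWith.const _).weaken zero_le_one

theorem curve_lower (hR : 0 < R) {c : ℝ≥0} (γ : LipCurve (EBall n R) (SS n) c (f0 hn R) (f1 R)) :
    ENNReal.ofReal R ≤ γ.length := by
  have hcont : Continuous (fun p : I × EBall n R => γ.F p.1 p.2) := by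
    have h1 : Continuous (fun p : EBall n R × I => γ.F p.2 p.1) :=
      continuous_prod_of_continuous_lipschitzWith (fun p : EBall n R × I => γ.F p.2 p.1) c
        (fun a => γ.cont a) (fun t => γ.lip t)
    exact h1.comp continuous_swap
  let H : C(I × EBall n R, SS n) := ⟨_, hcont⟩
  let ft : C(EBall n R, Cyl n) := ⟨f0t hn R, (f0t_lip hn R).continuous⟩
  have H0 : ∀ a, H (0, a) = InvQuot.proj (flip n) (ft a) := by
    intro a
    change γ.F 0 a = _
    rw [γ.start]
    rfl
  let Ft : C(I × EBall n R, Cyl n) := (cov_SS n).liftHomotopy H ft H0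
  have hFt : ∀ p, InvQuot.proj (flip n) (Ft p) = H p := fun p =>
    congrFun ((cov_SS n).liftHomotopy_lifts H ft H0) p
  have hFt0 : ∀ a, Ft (0, a) = f0t hn R a := fun a => (cov_SS n).liftHomotopy_zero H ft H0 a
  have hfst : Continuous (fun p : I × EBall n R => (Ft p).fst) := by
    have h1 : LipschitzWith 1 (fun x : Cyl n => x.fst) := by
      apply LipschitzWith.of_dist_le_mul
      intro x y
      rw [NNReal.coe_one, one_mul]
      exact dist_fst_le x y
    exact h1.continuous.comp Ft.continuous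
  let H' : C(I × EBall n R, AddCircle (2 : ℝ)) := ⟨_, hfst⟩
  let fr : C(EBall n R, ℝ) := ⟨crd hn R, crd_continuous hn R⟩
  have H'0 : ∀ a, H' (0, a) = ((fr a : ℝ) : AddCircle (2 : ℝ)) := by
    intro a
    change (Ft (0, a)).fst = _
    rw [hFt0]
    rfl
  let G : C(I × EBall n R, ℝ) := (AddCircle.isCoveringMap_coe (2 : ℝ)).liftHomotopy H' fr H'0
  have hG : ∀ p, ((G p : ℝ) : AddCircle (2 : ℝ)) = (Ft p).fst := fun p =>
    congrFun ((AddCircle.isCoveringMap_coe (2 : ℝ)).liftHomotopy_lifts H' fr H'0) p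
  have hG0 : ∀ a, G (0, a) = crd hn R a := fun a =>
    (AddCircle.isCoveringMap_coe (2 : ℝ)).liftHomotopy_zero H' fr H'0 a
  -- at time one
  have hG1 : ∀ a, G (1, a) ∈ AddSubgroup.zmultiples (2 : ℝ) := by
    intro a
    have h1 : InvQuot.proj (flip n) (Ft (1, a)) =
        InvQuot.proj (flip n) (WithLp.toLp 2 (0, Sph.base n)) := by
      rw [hFt]
      change γ.F 1 a = _
      rw [γ.finish]
      rfl
    have h2 : (Ft (1, a)).fst = 0 := by
      rcases (proj_eq (flip n)).1 h1 with h | h
      · rw [h]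
        rfl
      · rw [h]
        change -(0 : AddCircle (2 : ℝ)) = 0
        exact neg_zero
    rw [← hG, AddCircle.coe_eq_zero_iff] at h2
    exact AddSubgroup.mem_zmultiples_iff.2 h2
  have hpre : PreconnectedSpace (EBall n R) :=
    Subtype.preconnectedSpace (convex_closedBall (0 : EuclideanSpace ℝ (Fin n)) R).isPreconnected
  have hconst : ∀ a b, G (1, a) = G (1, b) := by
    intro a b
    have hc : Continuous (fun a => G (1, a)) := G.continuous.comp (by fun_prop)
    have hdisc : IsDiscrete ((AddSubgroup.zmultiples (2 : ℝ) : AddSubgroup ℝ) : Set ℝ) :=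
      isDiscrete_iff_discreteTopology.2
        (inferInstanceAs (DiscreteTopology (AddSubgroup.zmultiples (2 : ℝ))))
    exact isPreconnected_univ.constant_of_mapsTo hdisc
      hc.continuousOn (fun a _ => hG1 a) (Set.mem_univ a) (Set.mem_univ b)
  -- the two end points
  have hmem : ∀ r : ℝ, |r| ≤ R → (EuclideanSpace.single (⟨0, hn⟩ : Fin n) r) ∈
      Metric.closedBall (0 : EuclideanSpace ℝ (Fin n)) R := by
    intro r hr
    rw [mem_closedBall_zero_iff, EuclideanSpace.norm_single]
    exact hr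
  let pt : ∀ r : ℝ, |r| ≤ R → EBall n R := fun r hr => ⟨_, hmem r hr⟩
  have hpt : ∀ (r : ℝ) (hr : |r| ≤ R), crd hn R (pt r hr) = r := by
    intro r hr
    simp [crd, pt]
  have hRR : |R| ≤ R := (abs_of_pos hR).le
  have hRR' : |(-R)| ≤ R := by rw [abs_neg]; exact hRR
  have hex : ∃ a : EBall n R, R ≤ |G (1, a) - G (0, a)| := by
    have h1 : G (1, pt R hRR) = G (1, pt (-R) hRR') := hconst _ _
    by_cases h : 0 ≤ G (1, pt R hRR)
    · refine ⟨pt (-R) hRR', ?_⟩
      rw [← h1, hG0, hpt (-R) hRR']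
      rw [sub_neg_eq_add]
      exact le_trans (by linarith) (le_abs_self _)
    · refine ⟨pt R hRR, ?_⟩
      rw [hG0, hpt R hRR, abs_sub_comm]
      push Not at h
      exact le_trans (by linarith) (le_abs_self _)
  obtain ⟨a, ha⟩ := hex
  -- local comparison
  have hu1 : UniformContinuous (fun t : I => Ft (t, a)) :=
    CompactSpace.uniformContinuous_of_continuous (Ft.continuous.comp (by fun_prop))
  have hu2 : UniformContinuous (fun t : I => G (t, a)) :=
    CompactSpace.uniformContinuous_of_continuous (G.continuous.comp (by fun_prop))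
  obtain ⟨δ1, hδ1, hd1⟩ := Metric.uniformContinuous_iff.1 hu1 1 one_pos
  obtain ⟨δ2, hδ2, hd2⟩ := Metric.uniformContinuous_iff.1 hu2 1 one_pos
  have hloc : ∀ s t : I, dist s t < min δ1 δ2 →
      |G (s, a) - G (t, a)| ≤ dist (γ.F s a) (γ.F t a) := by
    intro s t hst
    have h1 := hd1 (lt_of_lt_of_le hst (min_le_left _ _))
    have h2 := hd2 (lt_of_lt_of_le hst (min_le_right _ _))
    rw [Real.dist_eq] at h2
    have e1 : γ.F s a = InvQuot.proj (flip n) (Ft (s, a)) := (hFt (s, a)).symm
    have e2 : γ.F t a = InvQuot.proj (flip n) (Ft (t, a)) := (hFt (t, a)).symm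
    rw [e1, e2, InvQuot.dist_proj]
    apply le_min
    · refine le_trans ?_ (dist_fst_le _ _)
      rw [← hG, ← hG, dist_eq_norm, ← AddCircle.coe_sub,
        (AddCircle.norm_coe_eq_abs_iff 2 two_ne_zero).2]
      rw [abs_two]
      linarith
    · have h3 := dist_flip n (Ft (t, a))
      have h4 := dist_triangle (Ft (t, a)) (Ft (s, a)) ((flip n).toFun (Ft (t, a)))
      rw [dist_comm (Ft (t, a)) (Ft (s, a))] at h4
      linarith [Real.pi_gt_three]
  have h5 := var_lower (fun t => γ.F t a) (fun t => G (t, a)) (min δ1 δ2) (lt_min hδ1 hδ2) hloc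
  refine (ENNReal.ofReal_le_ofReal ha).trans (h5.trans ?_)
  exact le_iSup (fun x : EBall n R => eVariationOn (fun t => γ.F t x) Set.univ) a

include hn in
theorem diam_lower (hR : 0 < R) (c : ℝ≥0) : ENNReal.ofReal R ≤ diamLip (EBall n R) (SS n) c 1 := by
  have h1 : ENNReal.ofReal R ≤ distLip (EBall n R) (SS n) c (f0 hn R) (f1 R) :=
    le_iInf fun γ => curve_lower hn R hR γ
  refine h1.trans ?_
  refine le_iSup_of_le (f0 hn R) (le_iSup_of_le (f0_lip hn R) (le_iSup_of_le (f1 R)
    (le_iSup_of_le (f1_lip R) le_rfl)))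

include hn in
theorem not_bounded : ¬ BoundedDiameters n (SS n) := by
  rintro ⟨c, _, D, h⟩
  have h1 := (diam_lower (n := n) hn (D + 1) (by positivity) c).trans (h (D + 1) (by positivity))
  rw [ENNReal.ofReal_le_iff_le_toReal ENNReal.coe_ne_top, ENNReal.coe_toReal] at h1
  linarith

end Pool.Agent.H261R3.LD
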