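import Pool.Agent.H261R3.LD.Defs

/-! Topology and geometry of the spaces. -/

set_option autoImplicit false
set_option maxHeartbeats 400000

open scoped ENNReal NNReal Topology

namespace Pool.Agent.H261R3.LD

/-! ### the quotient by an isometric involution -/

section quot
variable {X : Type} [MetricSpace X] (s : IsomInv X)

theorem IsomInv.continuous : Continuous s.toFun :=
  (Isometry.of_dist_eq s.isom).continuous

theorem proj_surj : Function.Surjective (InvQuot.proj s) := Quotient.mk_surjective

theorem proj_eq {x y : X} : InvQuot.proj s x = InvQuot.proj s y ↔ x = y ∨ x = s.toFun y :=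
  Quotient.eq (r := invSetoid s)

theorem proj_inv (x : X) : InvQuot.proj s (s.toFun x) = InvQuot.proj s x :=
  (proj_eq s).2 (Or.inr rfl)

theorem proj_lip : LipschitzWith 1 (InvQuot.proj s) := by
  apply LipschitzWith.of_dist_le_mul
  intro x y
  rw [InvQuot.dist_proj, NNReal.coe_one, one_mul]
  exact min_le_left _ _

theorem proj_continuous : Continuous (InvQuot.proj s) := (proj_lip s).continuous

theorem proj_isOpenMap : IsOpenMap (InvQuot.proj s) := by
  intro U hU
  rw [Metric.isOpen_iff]
  rintro _ ⟨x, hx, rfl⟩
  obtain ⟨ε, hε, hU⟩ := Metric.isOpen_iff.1 hU x hx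
  refine ⟨ε, hε, ?_⟩
  intro q hq
  obtain ⟨y, rfl⟩ := proj_surj s q
  rw [Metric.mem_ball, InvQuot.dist_proj, min_lt_iff] at hq
  rcases hq with h | h
  · exact ⟨y, hU h, rfl⟩
  · refine ⟨s.toFun y, hU ?_, proj_inv s y⟩
    rw [Metric.mem_ball, s.dist_left]
    exact h

theorem proj_isOpenQuotientMap : IsOpenQuotientMap (InvQuot.proj s) :=
  ⟨proj_surj s, proj_continuous s, proj_isOpenMap s⟩

/-- the action of `ℤˣ = {1, -1}` through the involution -/
@[implicit_reducible]
noncomputable def invAction : MulAction ℤˣ X where
  smul u x := if u = 1 then x else s.toFun x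
  one_smul x := if_pos rfl
  mul_smul u v x := by
    change (if u * v = 1 then x else s.toFun x) =
      (if u = 1 then (if v = 1 then x else s.toFun x) else s.toFun (if v = 1 then x else s.toFun x))
    rcases Int.units_eq_one_or u with rfl | rfl <;> rcases Int.units_eq_one_or v with rfl | rfl
    · simp
    · simp
    · simp
    · simp [s.invol]

theorem invAction_one (x : X) : (invAction s).smul 1 x = x := if_pos rfl
theorem invAction_neg (x : X) : (invAction s).smul (-1) x = s.toFun x := by
  change (if (-1 : ℤˣ) = 1 then x else s.toFun x) = _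
  rw [if_neg (by decide)]

theorem proj_isCovering (hf : ∀ x, s.toFun x ≠ x) : IsCoveringMap (InvQuot.proj s) := by
  let := invAction s
  have hq : IsQuotientCoveringMap (InvQuot.proj s) ℤˣ :=
    { (proj_isOpenQuotientMap s).isQuotientMap with
      continuous_const_smul := by
        intro u
        rcases Int.units_eq_one_or u with rfl | rfl
        · have : (fun x : X => (1 : ℤˣ) • x) = id := funext fun x => one_smul _ x
          rw [this]
          exact continuous_id
        · have : (fun x : X => (-1 : ℤˣ) • x) = s.toFun := funext fun x => invAction_neg s x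
          rw [this]
          exact s.continuous
      apply_eq_iff_mem_orbit := by
        intro x y
        rw [proj_eq, MulAction.mem_orbit_iff]
        constructor
        · rintro (h | h)
          · exact ⟨1, by rw [one_smul, h]⟩
          · exact ⟨-1, by rw [h]; exact invAction_neg s y⟩
        · rintro ⟨u, hu⟩
          rcases Int.units_eq_one_or u with rfl | rfl
          · left; rw [← hu, one_smul]
          · right; rw [← hu]; exact invAction_neg s y
      disjoint := by
        intro e
        obtain ⟨U, V, hU, hV, heU, heV, hd⟩ := t2_separation (hf e)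
        refine ⟨V ∩ s.toFun ⁻¹' U, ?_, ?_⟩
        · exact (hV.inter (hU.preimage s.continuous)).mem_nhds ⟨heV, heU⟩
        · intro g hg
          rcases Int.units_eq_one_or g with rfl | rfl
          · rfl
          · exfalso
            obtain ⟨_, ⟨y, ⟨_, hy⟩, rfl⟩, hz, _⟩ := hg
            have h1 : (-1 : ℤˣ) • y = s.toFun y := invAction_neg s y
            simp only [h1] at hz
            exact Set.disjoint_left.1 hd hy hz }
  exact hq.isCoveringMap

instance [CompactSpace X] : CompactSpace (InvQuot s) := by
  refine ⟨?_⟩
  rw [← (proj_surj s).range_eq, ← Set.image_univ]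
  exact isCompact_univ.image (proj_continuous s)

end quot

/-- every two points are joined by a path which is Lipschitz with constant their distance -/
def Geodesic (X : Type) [MetricSpace X] : Prop :=
  ∀ x y : X, ∃ γ : unitInterval → X, γ 0 = x ∧ γ 1 = y ∧
    ∀ a b, dist (γ a) (γ b) ≤ dist x y * |(a : ℝ) - b|

theorem geodesic_quot {X : Type} [MetricSpace X] (s : IsomInv X) (h : Geodesic X) :
    Geodesic (InvQuot s) := by
  intro p q
  obtain ⟨x, rfl⟩ := proj_surj s p
  have : ∃ y, InvQuot.proj s y = q ∧ dist (InvQuot.proj s x) q = dist x y := by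
    obtain ⟨y, rfl⟩ := proj_surj s q
    rcases min_choice (dist x y) (dist x (s.toFun y)) with h | h
    · exact ⟨y, rfl, by rw [InvQuot.dist_proj, h]⟩
    · exact ⟨s.toFun y, proj_inv s y, by rw [InvQuot.dist_proj, h]⟩
  obtain ⟨y, rfl, hy⟩ := this
  obtain ⟨γ, h0, h1, hl⟩ := h x y
  refine ⟨fun t => InvQuot.proj s (γ t), congrArg _ h0, congrArg _ h1, ?_⟩
  intro a b
  rw [hy]
  refine le_trans ?_ (hl a b)
  have := (proj_lip s).dist_le_mul (γ a) (γ b)
  rwa [NNReal.coe_one, one_mul] at this

theorem lengthSpace_of_geodesic {X : Type} [MetricSpace X] (h : Geodesic X) :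
    IsLengthSpace X := by
  intro x y
  apply le_antisymm
  · refine le_iInf fun γ => ?_
    have := eVariationOn.edist_le (γ : unitInterval → X) (s := Set.univ) (Set.mem_univ 0)
      (Set.mem_univ 1)
    rwa [γ.source, γ.target] at this
  · obtain ⟨γ, h0, h1, hl⟩ := h x y
    have hlip : LipschitzWith (nndist x y) γ := by
      apply LipschitzWith.of_dist_le_mul
      intro a b
      rw [Subtype.dist_eq, Real.dist_eq]
      exact hl a b
    let p : Path x y := ⟨⟨γ, hlip.continuous⟩, h0, h1⟩
    refine (iInf_le _ p).trans ?_
    change eVariationOn γ Set.univ ≤ _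
    have h3 := (hlip.lipschitzOnWith (s := Set.univ)).comp_eVariationOn_le
      (f := γ) (g := fun t : unitInterval => t) (s := Set.univ) (t := Set.univ)
      (fun _ _ => Set.mem_univ _)
    refine h3.trans ?_
    have h4 : eVariationOn (fun t : unitInterval => t) Set.univ ≤ 1 := by
      have h5 : eVariationOn (fun t : unitInterval => t) Set.univ =
          eVariationOn (fun t : unitInterval => (t : ℝ)) Set.univ := rfl
      rw [h5]
      have hm : MonotoneOn (fun t : unitInterval => (t : ℝ)) Set.univ := fun a _ b _ hab => hab
      have := hm.eVariationOn_eq (a := 0) (b := 1) (Set.mem_univ _) (Set.mem_univ _)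
      have he : (Set.univ ∩ Set.Icc 0 1 : Set unitInterval) = Set.univ := by
        ext t
        simp only [Set.univ_inter, Set.mem_Icc, Set.mem_univ, iff_true]
        exact ⟨t.2.1, t.2.2⟩
      rw [he] at this
      rw [this]
      simp
    calc (nndist x y : ℝ≥0∞) * eVariationOn (fun t : unitInterval => t) Set.univ
        ≤ nndist x y * 1 := by gcongr
      _ = edist x y := by rw [mul_one, edist_nndist]

theorem pathConnected_of_geodesic {X : Type} [MetricSpace X] [Nonempty X] (h : Geodesic X) :
    PathConnectedSpace X := by
  refine ⟨inferInstance, ?_⟩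
  intro x y
  obtain ⟨γ, h0, h1, hl⟩ := h x y
  have hlip : LipschitzWith (nndist x y) γ := by
    apply LipschitzWith.of_dist_le_mul
    intro a b
    rw [Subtype.dist_eq, Real.dist_eq]
    exact hl a b
  exact ⟨⟨⟨γ, hlip.continuous⟩, h0, h1⟩⟩

end Pool.Agent.H261R3.LD
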