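import Pool.Agent.H261R3.LD.Space

/-! The sphere, the circle and their product. -/

set_option autoImplicit false
set_option maxHeartbeats 400000

open scoped ENNReal NNReal Topology

namespace Pool.Agent.H261R3.LD

theorem Sph.continuous_mk {n : ℕ} {A : Type} [TopologicalSpace A]
    {f : A → EuclideanSpace ℝ (Fin (n + 2))} (hf : Continuous f) (h : ∀ a, ‖f a‖ = 1) :
    Continuous (fun a => (⟨f a, h a⟩ : Sph n)) := by
  have h0 : ∀ a, f a ≠ 0 := by
    intro a ha
    have := h a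
    rw [ha, norm_zero] at this
    exact zero_ne_one this
  rw [continuous_iff_continuousAt]
  intro a
  rw [ContinuousAt, tendsto_iff_dist_tendsto_zero]
  have h1 : Filter.Tendsto (fun b => InnerProductGeometry.angle (f b) (f a)) (𝓝 a)
      (𝓝 (InnerProductGeometry.angle (f a) (f a))) := by
    have h2 : ContinuousAt (fun b => (f b, f a)) a :=
      (hf.continuousAt).prodMk continuousAt_const
    exact (InnerProductGeometry.continuousAt_angle (x := (f a, f a)) (h0 a) (h0 a)).comp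
      (f := fun b => (f b, f a)) h2
  rw [InnerProductGeometry.angle_self (h0 a)] at h1
  exact h1

/-- the unit sphere with the subspace topology -/
abbrev T (n : ℕ) : Type := {v : EuclideanSpace ℝ (Fin (n + 2)) // ‖v‖ = 1}

instance (n : ℕ) : CompactSpace (T n) := by
  have : IsCompact {v : EuclideanSpace ℝ (Fin (n + 2)) | ‖v‖ = 1} := by
    have h := isCompact_sphere (0 : EuclideanSpace ℝ (Fin (n + 2))) 1
    have he : {v : EuclideanSpace ℝ (Fin (n + 2)) | ‖v‖ = 1} = Metric.sphere 0 1 := by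
      ext v
      rw [mem_sphere_zero_iff_norm]
      rfl
    rw [he]
    exact h
  exact isCompact_iff_compactSpace.1 this

/-- identity -/
def Tto (n : ℕ) : T n ≃ Sph n :=
  ⟨fun v => ⟨v.1, v.2⟩, fun v => ⟨v.1, v.2⟩, fun _ => rfl, fun _ => rfl⟩

theorem Tto_continuous (n : ℕ) : Continuous (Tto n) :=
  Sph.continuous_mk (A := T n) continuous_subtype_val fun v => v.2

/-- homeomorphism of the sphere with subspace topology and the sphere with the angular metric -/
noncomputable def Thomeo (n : ℕ) : T n ≃ₜ Sph n :=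
  Continuous.homeoOfEquivCompactToT2 (f := Tto n) (Tto_continuous n)

instance (n : ℕ) : CompactSpace (Sph n) := (Thomeo n).compactSpace

theorem Sph.continuous_val (n : ℕ) :
    Continuous (fun u : Sph n => (u.1 : EuclideanSpace ℝ (Fin (n + 2)))) :=
  continuous_subtype_val.comp (Thomeo n).symm.continuous

theorem exists_orth (n : ℕ) (u : EuclideanSpace ℝ (Fin (n + 2))) (hu : ‖u‖ = 1) :
    ∃ w : EuclideanSpace ℝ (Fin (n + 2)), ‖w‖ = 1 ∧ inner ℝ u w = 0 := by
  have hu0 : u ≠ 0 := by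
    intro h
    rw [h, norm_zero] at hu
    exact zero_ne_one hu
  have h1 : Module.finrank ℝ (Submodule.span ℝ {u})ᗮ = n + 1 := by
    have : Fact (Module.finrank ℝ (EuclideanSpace ℝ (Fin (n + 2))) = (n + 1) + 1) :=
      ⟨by simp⟩
    exact Submodule.finrank_orthogonal_span_singleton hu0
  have h2 : 0 < Module.finrank ℝ (Submodule.span ℝ {u})ᗮ := by omega
  have := Module.finrank_pos_iff.1 h2
  obtain ⟨w, hw⟩ := exists_ne (0 : (Submodule.span ℝ {u})ᗮ)
  have hw0 : (w : EuclideanSpace ℝ (Fin (n + 2))) ≠ 0 := fun h => hw (Subtype.ext h)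
  have horth : inner ℝ u (w : EuclideanSpace ℝ (Fin (n + 2))) = 0 :=
    Submodule.mem_orthogonal_singleton_iff_inner_right.1 w.2
  refine ⟨‖(w : EuclideanSpace ℝ (Fin (n + 2)))‖⁻¹ • w, ?_, ?_⟩
  · rw [norm_smul, norm_inv, norm_norm, inv_mul_cancel₀ (norm_ne_zero_iff.2 hw0)]
  · rw [inner_smul_right, horth, mul_zero]

theorem Sph.cos_dist {n : ℕ} (u v : Sph n) : Real.cos (dist u v) = inner ℝ u.1 v.1 := by
  rw [Sph.dist_def, InnerProductGeometry.cos_angle, u.2, v.2]
  simp

theorem Sph.exists_dir {n : ℕ} (u v : Sph n) :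
    ∃ w : EuclideanSpace ℝ (Fin (n + 2)), ‖w‖ = 1 ∧ inner ℝ u.1 w = 0 ∧
      v.1 = Real.cos (dist u v) • u.1 + Real.sin (dist u v) • w := by
  have huu : inner ℝ u.1 u.1 = (1 : ℝ) := by rw [real_inner_self_eq_norm_sq, u.2]; norm_num
  have hvv : inner ℝ v.1 v.1 = (1 : ℝ) := by rw [real_inner_self_eq_norm_sq, v.2]; norm_num
  have hc := Sph.cos_dist u v
  set θ := dist u v with hθ
  have hsc := Real.sin_sq_add_cos_sq θ
  by_cases hs : Real.sin θ = 0
  · obtain ⟨w, hw, ho⟩ := exists_orth n u.1 u.2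
    refine ⟨w, hw, ho, ?_⟩
    rw [hs, zero_smul, add_zero]
    have hn : ‖v.1 - Real.cos θ • u.1‖ ^ 2 = 0 := by
      rw [← real_inner_self_eq_norm_sq, inner_sub_left, inner_sub_right, inner_sub_right,
        inner_smul_left, inner_smul_right, inner_smul_left, inner_smul_right, hvv, huu,
        real_inner_comm u.1 v.1, ← hc]
      simp only [conj_trivial]
      rw [hs] at hsc
      nlinarith
    have := pow_eq_zero_iff (two_ne_zero) |>.1 hn
    exact sub_eq_zero.1 (norm_eq_zero.1 this)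
  · refine ⟨(Real.sin θ)⁻¹ • (v.1 - Real.cos θ • u.1), ?_, ?_, ?_⟩
    · have hn : ‖v.1 - Real.cos θ • u.1‖ ^ 2 = Real.sin θ ^ 2 := by
        rw [← real_inner_self_eq_norm_sq, inner_sub_left, inner_sub_right, inner_sub_right,
          inner_smul_left, inner_smul_right, inner_smul_left, inner_smul_right, hvv, huu,
          real_inner_comm u.1 v.1, ← hc]
        simp only [conj_trivial]
        nlinarith
      have h2 : ‖(Real.sin θ)⁻¹ • (v.1 - Real.cos θ • u.1)‖ ^ 2 = 1 := by
        rw [norm_smul, mul_pow, hn, Real.norm_eq_abs, sq_abs, inv_pow,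
          inv_mul_cancel₀ (pow_ne_zero 2 hs)]
      exact (pow_eq_one_iff_of_nonneg (norm_nonneg _) two_ne_zero).1 h2
    · rw [inner_smul_right, inner_sub_right, inner_smul_right, huu, ← hc]
      ring
    · rw [smul_smul, mul_inv_cancel₀ hs, one_smul]
      abel

theorem geodesic_sph (n : ℕ) : Geodesic (Sph n) := by
  intro u v
  obtain ⟨w, hw, ho, hv⟩ := Sph.exists_dir u v
  have huu : inner ℝ u.1 u.1 = (1 : ℝ) := by rw [real_inner_self_eq_norm_sq, u.2]; norm_num
  have hww : inner ℝ w w = (1 : ℝ) := by rw [real_inner_self_eq_norm_sq, hw]; norm_num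
  have ho' : inner ℝ w u.1 = (0 : ℝ) := by rw [real_inner_comm]; exact ho
  have hθ0 : 0 ≤ dist u v := dist_nonneg
  have hθ1 : dist u v ≤ Real.pi := InnerProductGeometry.angle_le_pi _ _
  set θ := dist u v with hθ
  have hin : ∀ a b : ℝ, inner ℝ (Real.cos a • u.1 + Real.sin a • w)
      (Real.cos b • u.1 + Real.sin b • w) = Real.cos (a - b) := by
    intro a b
    rw [inner_add_left, inner_add_right, inner_add_right, inner_smul_left, inner_smul_left,
      inner_smul_left, inner_smul_left, inner_smul_right, inner_smul_right, inner_smul_right,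
      inner_smul_right, huu, hww, ho, ho', Real.cos_sub]
    simp only [conj_trivial]
    ring
  have hnorm : ∀ a : ℝ, ‖Real.cos a • u.1 + Real.sin a • w‖ = 1 := by
    intro a
    have h1 := hin a a
    rw [sub_self, Real.cos_zero, real_inner_self_eq_norm_sq] at h1
    exact (pow_eq_one_iff_of_nonneg (norm_nonneg _) two_ne_zero).1 h1
  refine ⟨fun a => ⟨Real.cos (a * θ) • u.1 + Real.sin (a * θ) • w, hnorm _⟩, ?_, ?_, ?_⟩
  · apply Sph.ext
    simp
  · apply Sph.ext
    simp only [Set.Icc.coe_one, one_mul]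
    exact hv.symm
  · intro a b
    rw [Sph.dist_def, InnerProductGeometry.angle]
    simp only [hnorm]
    rw [hin, mul_one, div_one]
    have habs : |((a : ℝ) * θ - b * θ)| = θ * |(a : ℝ) - b| := by
      rw [← sub_mul, abs_mul, abs_of_nonneg hθ0, mul_comm]
    rw [← Real.cos_abs, habs, Real.arccos_cos (mul_nonneg hθ0 (abs_nonneg _))]
    have h1 : |(a : ℝ) - b| ≤ 1 := by
      rw [abs_le]
      constructor <;> linarith [a.2.1, a.2.2, b.2.1, b.2.2]
    calc θ * |(a : ℝ) - b| ≤ θ * 1 := by gcongr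
      _ ≤ Real.pi := by rw [mul_one]; exact hθ1

theorem exists_lift_norm (x : AddCircle (2 : ℝ)) : ∃ r : ℝ, (r : AddCircle (2 : ℝ)) = x ∧
    |r| = ‖x‖ := by
  obtain ⟨s, rfl⟩ := QuotientAddGroup.mk_surjective x
  refine ⟨s - round ((2 : ℝ)⁻¹ * s) * 2, ?_, (AddCircle.norm_eq 2).symm⟩
  rw [AddCircle.coe_sub]
  have : (((round ((2 : ℝ)⁻¹ * s) : ℝ) * 2 : ℝ) : AddCircle (2 : ℝ)) = 0 := by
    rw [AddCircle.coe_eq_zero_iff]
    exact ⟨round ((2 : ℝ)⁻¹ * s), by simp⟩
  rw [this, sub_zero]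

theorem norm_coe_le (s : ℝ) : ‖(s : AddCircle (2 : ℝ))‖ ≤ |s| :=
  QuotientAddGroup.norm_mk_le_norm (m := s)

theorem geodesic_circle : Geodesic (AddCircle (2 : ℝ)) := by
  intro x y
  obtain ⟨r, rfl⟩ := QuotientAddGroup.mk_surjective x
  obtain ⟨s, hs, hn⟩ := exists_lift_norm (y - (r : AddCircle (2 : ℝ)))
  refine ⟨fun a => ((r + a * s : ℝ) : AddCircle (2 : ℝ)), ?_, ?_, ?_⟩
  · simp
  · simp only [Set.Icc.coe_one, one_mul]
    rw [AddCircle.coe_add, hs]
    abel
  · intro a b
    rw [dist_eq_norm, ← AddCircle.coe_sub]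
    refine (norm_coe_le _).trans ?_
    have h1 : r + (a : ℝ) * s - (r + b * s) = s * ((a : ℝ) - b) := by ring
    rw [h1, abs_mul, hn, dist_comm, dist_eq_norm]

theorem dist_L2 {A B : Type} [MetricSpace A] [MetricSpace B] (x y : WithLp 2 (A × B)) :
    dist x y = √(dist x.fst y.fst ^ 2 + dist x.snd y.snd ^ 2) := by
  rw [WithLp.prod_dist_eq_add (by norm_num)]
  simp only [ENNReal.toReal_ofNat, Real.rpow_ofNat]
  rw [Real.sqrt_eq_rpow]

theorem dist_fst_le {A B : Type} [MetricSpace A] [MetricSpace B] (x y : WithLp 2 (A × B)) :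
    dist x.fst y.fst ≤ dist x y := by
  rw [dist_L2]
  exact Real.le_sqrt_of_sq_le (by nlinarith [sq_nonneg (dist x.snd y.snd)])

theorem dist_snd_le {A B : Type} [MetricSpace A] [MetricSpace B] (x y : WithLp 2 (A × B)) :
    dist x.snd y.snd ≤ dist x y := by
  rw [dist_L2]
  exact Real.le_sqrt_of_sq_le (by nlinarith [sq_nonneg (dist x.fst y.fst)])

theorem geodesic_L2 {A B : Type} [MetricSpace A] [MetricSpace B] (hA : Geodesic A)
    (hB : Geodesic B) : Geodesic (WithLp 2 (A × B)) := by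
  intro x y
  obtain ⟨α, a0, a1, al⟩ := hA x.fst y.fst
  obtain ⟨β, b0, b1, bl⟩ := hB x.snd y.snd
  refine ⟨fun t => WithLp.toLp 2 (α t, β t), ?_, ?_, ?_⟩
  · change WithLp.toLp 2 (α 0, β 0) = x
    rw [a0, b0]
    rfl
  · change WithLp.toLp 2 (α 1, β 1) = y
    rw [a1, b1]
    rfl
  · intro s t
    rw [dist_L2, dist_L2, ← Real.sqrt_sq (abs_nonneg ((s : ℝ) - t)), ← Real.sqrt_mul (by positivity)]
    apply Real.sqrt_le_sqrt
    change dist (α s) (α t) ^ 2 + dist (β s) (β t) ^ 2 ≤ _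
    have h1 := pow_le_pow_left₀ dist_nonneg (al s t) 2
    have h2 := pow_le_pow_left₀ dist_nonneg (bl s t) 2
    rw [mul_pow] at h1 h2
    linarith [add_mul (dist x.fst y.fst ^ 2) (dist x.snd y.snd ^ 2) (|(s : ℝ) - t| ^ 2)]

theorem geodesic_cyl (n : ℕ) : Geodesic (Cyl n) := geodesic_L2 geodesic_circle (geodesic_sph n)

theorem geodesic_SS (n : ℕ) : Geodesic (SS n) := geodesic_quot _ (geodesic_cyl n)

instance (n : ℕ) : CompactSpace (Cyl n) :=
  haveI : Fact ((0 : ℝ) < 2) := ⟨two_pos⟩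
  (WithLp.homeomorphProd 2 (AddCircle (2 : ℝ)) (Sph n)).symm.compactSpace

/-- a base point of the sphere -/
noncomputable def Sph.base (n : ℕ) : Sph n := ⟨EuclideanSpace.single 0 1, by simp⟩

instance (n : ℕ) : Nonempty (SS n) := ⟨InvQuot.proj _ (WithLp.toLp 2 (0, Sph.base n))⟩

theorem compact_SS (n : ℕ) : CompactSpace (SS n) := inferInstance

theorem pathConnected_SS (n : ℕ) : PathConnectedSpace (SS n) :=
  pathConnected_of_geodesic (geodesic_SS n)

theorem lengthSpace_SS (n : ℕ) : IsLengthSpace (SS n) := lengthSpace_of_geodesic (geodesic_SS n)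

theorem flip_free (n : ℕ) (x : Cyl n) : (flip n).toFun x ≠ x := by
  intro h
  have h1 : x.snd.anti = x.snd := congrArg WithLp.snd h
  have h2 := congrArg Sph.val h1
  change -x.snd.1 = x.snd.1 at h2
  have h3 : (2 : ℝ) • x.snd.1 = 0 := by
    rw [two_smul]
    nth_rewrite 1 [← h2]
    exact neg_add_cancel _
  exact x.snd.ne_zero ((smul_eq_zero.1 h3).resolve_left two_ne_zero)

theorem dist_flip (n : ℕ) (x : Cyl n) : Real.pi ≤ dist x ((flip n).toFun x) := by
  refine le_trans ?_ (dist_snd_le _ _)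
  change _ ≤ InnerProductGeometry.angle x.snd.1 (-x.snd.1)
  rw [InnerProductGeometry.angle_self_neg_of_nonzero x.snd.ne_zero]

theorem cov_SS (n : ℕ) : IsCoveringMap (InvQuot.proj (flip n)) :=
  proj_isCovering _ (flip_free n)

end Pool.Agent.H261R3.LD
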