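import Pool.Agent.H261R3.LD.Arc
import Pool.Agent.H261R3.LD.Conv

/-! Transfer for the double cover and the Mayer-Vietoris argument: `H_i (S; ℝ) = 0`. -/

set_option autoImplicit false
set_option maxHeartbeats 400000

open scoped Topology unitInterval

namespace Pool.Agent.H261R3.LD

open Finsupp
open Pool.Agent.H904R2
open Pool.Agent.H904R2.Sph
open Pool.Agent.Helper922.HB.Sc (Sing sface sbd slice supported_map)

instance simplex_preconnected (m : ℕ) : PreconnectedSpace (stdSimplex ℝ (Fin (m + 1))) :=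
  Subtype.preconnectedSpace (convex_stdSimplex ℝ (Fin (m + 1))).isPreconnected

/-- cone contraction of the simplex -/
noncomputable def coneS (m : ℕ) :
    C(I × stdSimplex ℝ (Fin (m + 1)), stdSimplex ℝ (Fin (m + 1))) :=
  ⟨fun p => ⟨(1 - (p.1 : ℝ)) • (stdSimplex.vertex (S := ℝ) (0 : Fin (m + 1))).1 + (p.1 : ℝ) • p.2.1,
    (convex_stdSimplex ℝ (Fin (m + 1))) (stdSimplex.vertex (0 : Fin (m + 1))).2 p.2.2
      (by linarith [p.1.2.2]) p.1.2.1 (by ring)⟩, by
    apply Continuous.subtype_mk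
    have h : Continuous fun p : I × stdSimplex ℝ (Fin (m + 1)) => (p.2.1 : Fin (m + 1) → ℝ) :=
      continuous_subtype_val.comp continuous_snd
    have h' : Continuous fun p : I × stdSimplex ℝ (Fin (m + 1)) => (p.1 : ℝ) :=
      continuous_subtype_val.comp continuous_fst
    exact ((continuous_const.sub h').smul continuous_const).add (h'.smul h)⟩

theorem coneS_zero (m : ℕ) (x : stdSimplex ℝ (Fin (m + 1))) :
    coneS m (0, x) = stdSimplex.vertex 0 := by
  apply Subtype.ext
  change (1 - ((0 : I) : ℝ)) • (stdSimplex.vertex (S := ℝ) (0 : Fin (m + 1))).1 +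
    ((0 : I) : ℝ) • x.1 = _
  rw [Set.Icc.coe_zero, sub_zero, one_smul, zero_smul, add_zero]

theorem coneS_one (m : ℕ) (x : stdSimplex ℝ (Fin (m + 1))) :
    coneS m (1, x) = x := by
  apply Subtype.ext
  change (1 - ((1 : I) : ℝ)) • (stdSimplex.vertex (S := ℝ) (0 : Fin (m + 1))).1 +
    ((1 : I) : ℝ) • x.1 = _
  rw [Set.Icc.coe_one, sub_self, zero_smul, one_smul, zero_add]

section transfer
variable {X : Type} [MetricSpace X] (s : IsomInv X) (hf : ∀ x, s.toFun x ≠ x)

/-- the projection as continuous map -/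
def pC : C(X, InvQuot s) := ⟨InvQuot.proj s, proj_continuous s⟩

/-- the involution as continuous map -/
def sC : C(X, X) := ⟨s.toFun, s.continuous⟩

include hf in
theorem exists_simplex_lift (m : ℕ) (τ : Sing (InvQuot s) m) :
    ∃ a : Sing X m, (pC s).comp a = τ := by
  obtain ⟨e, he⟩ := proj_surj s (τ (stdSimplex.vertex 0))
  have H0 : ∀ x, (τ.comp (coneS m)) (0, x) = InvQuot.proj s
      ((ContinuousMap.const (stdSimplex ℝ (Fin (m + 1))) e) x) := by
    intro x
    change τ (coneS m (0, x)) = InvQuot.proj s e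
    rw [coneS_zero, he]
  let L := (proj_isCovering s hf).liftHomotopy (τ.comp (coneS m))
    (ContinuousMap.const (stdSimplex ℝ (Fin (m + 1))) e) H0
  refine ⟨⟨fun x => L (1, x), L.continuous.comp (by fun_prop)⟩, ?_⟩
  apply ContinuousMap.ext
  intro x
  have h := congrFun ((proj_isCovering s hf).liftHomotopy_lifts (τ.comp (coneS m))
    (ContinuousMap.const (stdSimplex ℝ (Fin (m + 1))) e) H0) (1, x)
  have h2 : (τ.comp (coneS m)) (1, x) = τ x := by
    change τ (coneS m (1, x)) = τ x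
    rw [coneS_one]
  rw [h2] at h
  exact h

include hf in
theorem simplex_lift_unique (m : ℕ) (a b : Sing X m) (h : (pC s).comp a = (pC s).comp b) :
    a = b ∨ a = (sC s).comp b := by
  have hpt : ∀ t, InvQuot.proj s (a t) = InvQuot.proj s (b t) := fun t =>
    congrArg (fun g : Sing (InvQuot s) m => g t) h
  let v : stdSimplex ℝ (Fin (m + 1)) := stdSimplex.vertex 0
  rcases (proj_eq s).1 (hpt v) with h1 | h1
  · left
    have := (proj_isCovering s hf).eq_of_comp_eq a.continuous b.continuous (funext hpt) v h1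
    exact DFunLike.coe_injective this
  · right
    have h3 : InvQuot.proj s ∘ a = InvQuot.proj s ∘ ((sC s).comp b) := by
      funext t
      change InvQuot.proj s (a t) = InvQuot.proj s (s.toFun (b t))
      rw [proj_inv]
      exact hpt t
    have := (proj_isCovering s hf).eq_of_comp_eq a.continuous ((sC s).comp b).continuous h3 v h1
    exact DFunLike.coe_injective this

/-- a lift of a simplex -/
noncomputable def lft (m : ℕ) (τ : Sing (InvQuot s) m) : Sing X m :=
  (exists_simplex_lift s hf m τ).choose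

theorem lft_spec (m : ℕ) (τ : Sing (InvQuot s) m) : (pC s).comp (lft s hf m τ) = τ :=
  (exists_simplex_lift s hf m τ).choose_spec

/-- the transfer -/
noncomputable def tr (m : ℕ) : Ch (InvQuot s) m →ₗ[ℤ] Ch X m :=
  Finsupp.linearCombination ℤ fun τ =>
    single (lft s hf m τ) (1 : ℤ) + single ((sC s).comp (lft s hf m τ)) (1 : ℤ)

theorem sC_sC (m : ℕ) (b : Sing X m) : (sC s).comp ((sC s).comp b) = b := by
  apply ContinuousMap.ext
  intro t
  exact s.invol _

theorem tr_single (m : ℕ) (τ : Sing (InvQuot s) m) (a : Sing X m) (ha : (pC s).comp a = τ) :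
    tr s hf m (single τ 1) = single a 1 + single ((sC s).comp a) 1 := by
  rw [tr, linearCombination_single, one_smul]
  have h : (pC s).comp a = (pC s).comp (lft s hf m τ) := by rw [lft_spec, ha]
  rcases simplex_lift_unique s hf m _ _ h with h | h
  · rw [h]
  · rw [h, sC_sC, add_comm]

theorem sface_comp {Y Z : Type} [TopologicalSpace Y] [TopologicalSpace Z] (f : C(Y, Z)) (m : ℕ)
    (i : Fin (m + 2)) (a : Sing Y (m + 1)) : sface m i (f.comp a) = f.comp (sface m i a) := rfl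

theorem sbd_tr (m : ℕ) (z : Ch (InvQuot s) (m + 1)) :
    sbd X m (tr s hf (m + 1) z) = tr s hf m (sbd (InvQuot s) m z) := by
  have : (sbd X m).comp (tr s hf (m + 1)) = (tr s hf m).comp (sbd (InvQuot s) m) := by
    apply Finsupp.lhom_ext'
    intro τ
    apply LinearMap.ext_ring
    simp only [LinearMap.comp_apply, lsingle_apply]
    have hl := lft_spec s hf (m + 1) τ
    rw [tr_single s hf (m + 1) τ _ hl, map_add, sbd_single, sbd_single, sbd_single, map_sum,
      ← Finset.sum_add_distrib]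
    refine Finset.sum_congr rfl fun i _ => ?_
    rw [map_smul, tr_single s hf m (sface m i τ) (sface m i (lft s hf (m + 1) τ)), smul_add]
    · rfl
    · rw [← sface_comp, hl]
  exact LinearMap.congr_fun this z

theorem psh_tr (m : ℕ) (z : Ch (InvQuot s) m) : psh (pC s) m (tr s hf m z) = (2 : ℤ) • z := by
  have : (psh (pC s) m).comp (tr s hf m) = (2 : ℤ) • LinearMap.id := by
    apply Finsupp.lhom_ext'
    intro τ
    apply LinearMap.ext_ring
    simp only [LinearMap.comp_apply, lsingle_apply, LinearMap.smul_apply, LinearMap.id_apply]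
    have hl := lft_spec s hf m τ
    rw [tr_single s hf m τ _ hl, map_add, psh_single, psh_single, hl]
    have h2 : (pC s).comp ((sC s).comp (lft s hf m τ)) = τ := by
      rw [← hl]
      apply ContinuousMap.ext
      intro t
      change InvQuot.proj s (s.toFun _) = InvQuot.proj s _
      rw [proj_inv, hl]
    rw [h2, two_smul]
  exact LinearMap.congr_fun this z

theorem tr_mem (O : Set (InvQuot s)) {m : ℕ} {z : Ch (InvQuot s) m} (hz : z ∈ sup O m) :
    tr s hf m z ∈ sup (InvQuot.proj s ⁻¹' O) m := by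
  refine supported_map _ (tr s hf m) _ ?_ z hz
  intro τ hτ
  have hl := lft_spec s hf m τ
  rw [tr_single s hf m τ _ hl]
  apply Submodule.add_mem
  · apply single_mem_sup
    rintro _ ⟨t, rfl⟩
    apply hτ
    refine ⟨t, ?_⟩
    nth_rewrite 1 [← hl]
    rfl
  · apply single_mem_sup
    rintro _ ⟨t, rfl⟩
    apply hτ
    refine ⟨t, ?_⟩
    nth_rewrite 1 [← hl]
    exact (proj_inv s _).symm

include hf in
theorem transfer_bdy (O : Set (InvQuot s)) {m : ℕ} (hO : RAcyc (InvQuot.proj s ⁻¹' O) (m + 1))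
    {z : Ch (InvQuot s) (m + 1)} (hz : z ∈ sup O (m + 1)) (hc : sbd _ m z = 0) :
    IsBdy (m + 1) ((2 : ℤ) • z) := by
  obtain ⟨y, _, hy⟩ := acyc_in hO (tr_mem s hf O hz)
    (show sbd X m (tr s hf (m + 1) z) = 0 by rw [sbd_tr, hc, map_zero])
  refine ⟨psh (pC s) (m + 2) y, ?_⟩
  rw [sbd_psh, hy, psh_tr]

end transfer

section geom

variable (n : ℕ)

theorem arc_open (a b : ℝ) : IsOpen (arc a b) :=
  QuotientAddGroup.isOpenMap_coe (N := AddSubgroup.zmultiples (2 : ℝ)) _ isOpen_Ioo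

theorem AA_open (a b : ℝ) : IsOpen (AA n a b) := (arc_open a b).preimage (fst_continuous n)

/-- the projection -/
noncomputable abbrev pr : Cyl n → SS n := InvQuot.proj (flip n)

theorem flip_mem {a b : ℝ} {x : Cyl n} (hx : x ∈ AA n a b) :
    (flip n).toFun x ∈ AA n (-b) (-a) := by
  obtain ⟨t, ht, he⟩ := hx
  refine ⟨-t, ⟨by linarith [ht.2], by linarith [ht.1]⟩, ?_⟩
  change ((-t : ℝ) : AddCircle (2 : ℝ)) = -x.fst
  rw [← he]
  exact AddCircle.coe_neg (2 : ℝ)

theorem coe_add_two (t : ℝ) : ((t + 2 : ℝ) : AddCircle (2 : ℝ)) = t := AddCircle.coe_add_period 2 t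

theorem shift_mem {a b : ℝ} {x : Cyl n} (hx : x ∈ AA n a b) : x ∈ AA n (a + 2) (b + 2) := by
  obtain ⟨t, ht, he⟩ := hx
  exact ⟨t + 2, ⟨by linarith [ht.1], by linarith [ht.2]⟩, (coe_add_two t).trans he⟩

/-- first open set -/
def O1 : Set (SS n) := pr n '' AA n (-1) 1
/-- second open set -/
def O2 : Set (SS n) := pr n '' AA n 0 2

theorem pre_O1 : pr n ⁻¹' O1 n = AA n (-1) 1 := by
  ext x
  constructor
  · rintro ⟨y, hy, h⟩
    rcases (proj_eq (flip n)).1 h with h | h
    · rwa [← h]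
    · have : x = (flip n).toFun y := by rw [h, (flip n).invol]
      rw [this]
      have := flip_mem n hy
      rwa [neg_neg] at this
  · intro hx
    exact ⟨x, hx, rfl⟩

theorem pre_O2 : pr n ⁻¹' O2 n = AA n 0 2 := by
  ext x
  constructor
  · rintro ⟨y, hy, h⟩
    rcases (proj_eq (flip n)).1 h with h | h
    · rwa [← h]
    · have : x = (flip n).toFun y := by rw [h, (flip n).invol]
      rw [this]
      have := shift_mem n (flip_mem n hy)
      rwa [neg_add_cancel, neg_zero, zero_add] at this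
  · intro hx
    exact ⟨x, hx, rfl⟩

theorem cover_O (q : SS n) : q ∈ O1 n ∨ q ∈ O2 n := by
  obtain ⟨x, rfl⟩ := proj_surj (flip n) q
  have h1 : (AddCircle.equivIco 2 (-1) x.fst : ℝ) ∈ Set.Ico (-1 : ℝ) (-1 + 2) :=
    (AddCircle.equivIco 2 (-1) x.fst).2
  have h2 := coe_rr (-1) x.fst
  change rr (-1) x.fst ∈ _ at h1
  rcases h1.1.eq_or_lt with h | h
  · right
    refine ⟨x, ⟨1, ⟨by norm_num, by norm_num⟩, ?_⟩, rfl⟩
    rw [← h2, ← h, ← coe_add_two]
    norm_num
  · left
    refine ⟨x, ⟨rr (-1) x.fst, ⟨h, by linarith [h1.2]⟩, h2⟩, rfl⟩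

theorem inter_O : O1 n ∩ O2 n = pr n '' AA n 0 1 := by
  ext q
  constructor
  · rintro ⟨h1, h2⟩
    obtain ⟨x, rfl⟩ := proj_surj (flip n) q
    have h1 : x ∈ pr n ⁻¹' O1 n := h1
    have h2 : x ∈ pr n ⁻¹' O2 n := h2
    rw [pre_O1] at h1
    rw [pre_O2] at h2
    obtain ⟨t, ht, he⟩ := h1
    simp only at he
    have hr := rr_mem (a := 0) (b := 2) (by norm_num) h2
    have ht0 : t ≠ 0 := by
      rintro rfl
      rw [← he, rr_coe ⟨le_rfl, by norm_num⟩] at hr
      exact lt_irrefl _ hr.1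
    rcases lt_or_gt_of_ne ht0 with h | h
    · have hx : x ∈ AA n (-1) 0 := ⟨t, ⟨ht.1, h⟩, he⟩
      have := flip_mem n hx
      rw [neg_neg, neg_zero] at this
      exact ⟨_, this, proj_inv _ _⟩
    · exact ⟨x, ⟨t, ⟨h, ht.2⟩, he⟩, rfl⟩
  · rintro ⟨x, ⟨t, ht, he⟩, rfl⟩
    exact ⟨⟨x, ⟨t, ⟨by linarith [ht.1], ht.2⟩, he⟩, rfl⟩,
      ⟨x, ⟨t, ⟨ht.1, by linarith [ht.2]⟩, he⟩, rfl⟩⟩

theorem inj_half {x y : Cyl n} (hx : x ∈ AA n 0 1) (hy : y ∈ AA n 0 1) (h : pr n x = pr n y) :
    x = y := by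
  rcases (proj_eq (flip n)).1 h with h | h
  · exact h
  · exfalso
    have h1 := flip_mem n hy
    rw [← h] at h1
    obtain ⟨t, ht, he⟩ := hx
    obtain ⟨r, hr, hre⟩ := h1
    simp only at he hre
    have e1 := rr_coe (a := -1) (s := t) ⟨by linarith [ht.1], by linarith [ht.2]⟩
    have e2 := rr_coe (a := -1) (s := r) ⟨by linarith [hr.1], by linarith [hr.2]⟩
    rw [he] at e1
    rw [hre, e1] at e2
    linarith [ht.1, hr.2]

theorem half_mem (x : AA n 0 1) : pr n x.1 ∈ O1 n ∩ O2 n := by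
  rw [inter_O]
  exact ⟨x.1, x.2, rfl⟩

/-- the map to the intersection -/
noncomputable def halfMap (x : AA n 0 1) : ↥(O1 n ∩ O2 n) := ⟨pr n x.1, half_mem n x⟩

theorem halfMap_bij : Function.Bijective (halfMap n) := by
  constructor
  · intro x y h
    exact Subtype.ext (inj_half n x.2 y.2 (congrArg Subtype.val h))
  · rintro ⟨q, hq⟩
    have hq' := hq
    rw [inter_O] at hq'
    obtain ⟨x, hx, rfl⟩ := hq'
    exact ⟨⟨x, hx⟩, rfl⟩

theorem halfMap_cont : Continuous (halfMap n) :=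
  ((proj_continuous (flip n)).comp continuous_subtype_val).subtype_mk _

theorem halfMap_open : IsOpenMap (halfMap n) := by
  intro U hU
  have h1 : IsOpen (pr n '' (Subtype.val '' U)) :=
    proj_isOpenMap (flip n) _ ((AA_open n 0 1).isOpenMap_subtype_val U hU)
  refine isOpen_induced_iff.2 ⟨_, h1, ?_⟩
  ext ⟨q, hq⟩
  constructor
  · rintro ⟨x, ⟨y, hy, rfl⟩, hxq⟩
    exact ⟨y, hy, Subtype.ext hxq⟩
  · rintro ⟨y, hy, hyq⟩
    exact ⟨y.1, ⟨y, hy, rfl⟩, congrArg Subtype.val hyq⟩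

/-- the homeomorphism of `(0,1) × S^{n+1}` with the intersection -/
noncomputable def halfHomeo : AA n 0 1 ≃ₜ ↥(O1 n ∩ O2 n) :=
  (Equiv.ofBijective (halfMap n) (halfMap_bij n)).toHomeomorphOfContinuousOpen
    (halfMap_cont n) (halfMap_open n)

theorem racyc_homeo {X Y : Type} [TopologicalSpace X] [TopologicalSpace Y] (e : X ≃ₜ Y) {m : ℕ}
    (h : RAcyc X m) : RAcyc Y m := by
  intro z hz
  have h1 := bdy_psh (⟨e, e.continuous⟩ : C(X, Y)) (h _ (cyc_psh ⟨e.symm, e.symm.continuous⟩ hz))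
  rw [psh_comp] at h1
  have h2 : (⟨e, e.continuous⟩ : C(X, Y)).comp ⟨e.symm, e.symm.continuous⟩ =
      ContinuousMap.id Y := by
    apply ContinuousMap.ext
    intro y
    exact e.apply_symm_apply y
  rw [h2, psh_id] at h1
  exact h1

theorem inter_acyc (m : ℕ) (hm : m ≤ n) : RAcyc (↥(O1 n ∩ O2 n)) m :=
  racyc_homeo (halfHomeo n) (AA_acyc n 0 1 (by norm_num) (by norm_num) m hm)

theorem two_bdy (m : ℕ) (hm : m + 1 ≤ n) (z : Ch (SS n) (m + 1)) (hz : sbd _ m z = 0) :
    IsBdy (m + 1) ((2 : ℤ) • z) := by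
  have o1 : IsOpen (O1 n) := proj_isOpenMap _ _ (AA_open n _ _)
  have o2 : IsOpen (O2 n) := proj_isOpenMap _ _ (AA_open n _ _)
  obtain ⟨z1, h1, z2, h2, hb⟩ := mv_split (m := m + 1) (O1 n) (O2 n) o1 o2 (cover_O n) hz
  have hs : sbd _ m (z1 + z2) = 0 := by
    have h3 := bdy_cyc hb
    have h4 : sbd _ m (z - (z1 + z2)) = 0 := h3
    rw [map_sub, hz, zero_sub, neg_eq_zero] at h4
    exact h4
  have hmem := mv_bd_mem _ _ h1 h2 hs
  obtain ⟨w, hw, hw'⟩ := acyc_in (inter_acyc n m (by omega)) hmem (isCyc_sbd z1)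
  have a1 : RAcyc (pr n ⁻¹' O1 n) (m + 1) := by
    rw [pre_O1]
    exact AA_acyc n _ _ (by norm_num) (by norm_num) _ hm
  have a2 : RAcyc (pr n ⁻¹' O2 n) (m + 1) := by
    rw [pre_O2]
    exact AA_acyc n _ _ (by norm_num) (by norm_num) _ hm
  have b1 := transfer_bdy (flip n) (flip_free n) (O1 n) a1
    (Submodule.sub_mem _ h1 (sup_mono Set.inter_subset_left _ hw))
    (by rw [map_sub, hw', sub_self])
  have b2 := transfer_bdy (flip n) (flip_free n) (O2 n) a2
    (Submodule.add_mem _ h2 (sup_mono Set.inter_subset_right _ hw))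
    (by rw [map_add, hw', add_comm, ← map_add, hs])
  have h7 : (2 : ℤ) • z = (2 : ℤ) • (z - (z1 + z2)) + ((2 : ℤ) • (z1 - w) + (2 : ℤ) • (z2 + w)) := by
    rw [← smul_add, ← smul_add]
    congr 1
    abel
  rw [h7]
  exact bdy_add (bdy_smul hb 2) (bdy_add b1 b2)

theorem homology_SS (i : ℕ) (h1 : 1 ≤ i) (hi : i ≤ n) : HomologyVanishes (SS n) i := by
  obtain ⟨m, rfl⟩ : ∃ m, i = m + 1 := ⟨i - 1, by omega⟩
  exact vanishes_of_int m 2 two_ne_zero fun z hz => two_bdy n m hi z hz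

end geom

end Pool.Agent.H261R3.LD
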